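import Pool.Agent.H80.SH.Targets

/-!
# Module PSC: path sets
-/

set_option autoImplicit false

namespace Pool.Agent.H71.SH

open Finset Pool.Agent.H80.SH

section
variable {X : Type} [Fintype X] [DecidableEq X]

lemma ps_succ (L : Finset (Finset X)) (M : ℕ) :
    PS L (M + 1) = PS L M ∪ (PS L M ×ˢ (L ∪ L.image compl)).image (fun p => p.1 ∩ p.2) := rfl

lemma card_step (L : Finset (Finset X)) (M : ℕ) :
    (PS L (M + 1)).card ≤ (PS L M).card * (2 * L.card + 1) := by
  rw [ps_succ]
  refine (card_union_le _ _).trans ?_
  have h1 : ((PS L M ×ˢ (L ∪ L.image compl)).image (fun p => p.1 ∩ p.2)).card ≤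
      (PS L M).card * (2 * L.card) := by
    refine card_image_le.trans ?_
    rw [card_product]
    refine Nat.mul_le_mul_left _ ((card_union_le _ _).trans ?_)
    have h2 : (L.image compl).card ≤ L.card := card_image_le
    omega
  calc (PS L M).card + ((PS L M ×ˢ (L ∪ L.image compl)).image (fun p => p.1 ∩ p.2)).card
      ≤ (PS L M).card + (PS L M).card * (2 * L.card) := Nat.add_le_add_left h1 _
    _ = _ := by ring

lemma sub_step (L : Finset (Finset X)) (M : ℕ) : PS L M ⊆ PS L (M + 1) := by
  rw [ps_succ]
  exact subset_union_left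

lemma inter_mem (L : Finset (Finset X)) (M : ℕ) {P A : Finset X} (hP : P ∈ PS L M)
    (hA : A ∈ L ∪ L.image compl) : P ∩ A ∈ PS L (M + 1) := by
  rw [ps_succ]
  exact mem_union_right _ (mem_image.2 ⟨(P, A), mem_product.2 ⟨hP, hA⟩, rfl⟩)

end

theorem psc : T_PSC := by
  intro X _ _ L
  refine ⟨?_, ?_, ?_, ?_⟩
  · intro M
    induction M with
    | zero => simp [PS]
    | succ M ih =>
      rw [pow_succ]
      exact (card_step L M).trans (Nat.mul_le_mul_right _ ih)
  · intro M M' h
    induction M', h using Nat.le_induction with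
    | base => exact Subset.refl _
    | succ M' _ ih => exact ih.trans (sub_step L M')
  · intro M P A hP hA
    exact inter_mem L M hP (mem_union_left _ hA)
  · intro S A I M P hA hP
    induction I using Finset.induction_on with
    | empty => simpa using hP
    | insert a I ha ih =>
      have h1 : P.filter (fun x => ∀ b ∈ insert a I, x ∉ A b) =
          (P.filter (fun x => ∀ b ∈ I, x ∉ A b)) ∩ (A a)ᶜ := by
        ext x
        simp only [mem_filter, mem_inter, mem_compl, forall_mem_insert]
        tauto
      rw [h1, card_insert_of_notMem ha, ← add_assoc]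
      exact inter_mem L _ ih (mem_union_right _ (mem_image_of_mem _ (hA a)))

end Pool.Agent.H71.SH
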